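import Pool.Agent.X28.SP.Main

/-! The case of one shift. -/

set_option autoImplicit false

open Finset

namespace Pool.Agent.X28.SQ

theorem sparse1 : ∃ c : ℝ, 0 < c ∧ ∃ X0 : ℕ, ∀ (X Y : ℕ) (S : Finset ℕ), X0 ≤ X →
    16 ≤ Y → S ⊆ Icc 1 Y → 2 * (Y : ℝ) ≤ (X : ℝ) ^ (1 / 16 : ℝ) → Real.log X ≤ #S →
    c * X / Real.log (Real.log Y) ≤
      #((Icc 1 X).filter fun t => c * #S / Real.log X ≤ (#(S.filter fun s => (s + t).Prime) : ℝ)) := by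
  obtain ⟨c, hc, X0, h0⟩ := Pool.Agent.X28.SP.sparse 1 le_rfl
  refine ⟨c, hc, X0, fun X Y S hX hY hS hYX hl => ?_⟩
  have h1 := h0 X Y S hX hY hS hYX (by rw [pow_one]; exact hl)
  simp only [pow_one] at h1
  refine h1.trans ?_
  rw [Nat.cast_le]
  apply card_le_card_of_injOn (fun h => h 0)
  · intro h hh
    rw [mem_coe, mem_filter] at hh
    rw [mem_coe, mem_filter]
    obtain ⟨h2, h3⟩ := hh
    unfold Pool.Agent.X28.SP.Box at h2
    rw [Fintype.mem_piFinset] at h2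
    refine ⟨h2 0, h3.trans ?_⟩
    rw [Nat.cast_le]
    apply card_le_card
    intro s hs
    unfold Pool.Agent.X28.SP.hit at hs
    rw [mem_filter] at hs ⊢
    exact ⟨hs.1, hs.2 0⟩
  · intro a _ b _ hab
    funext i
    rw [Fin.eq_zero i]
    exact hab

/-- the sizes which occur -/
theorem sizes : ∃ n0 : ℕ, 1 ≤ n0 ∧ ∀ n : ℕ, n0 ≤ n → ∀ X : ℕ, (2 : ℝ) ^ (24 * √(n : ℝ)) ≤ X →
    n ≤ X ∧ 2 * ((2 ^ (Nat.sqrt (2 * n) + 2) : ℕ) : ℝ) ≤ (X : ℝ) ^ (1 / 16 : ℝ) ∧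
    16 ≤ 2 ^ (Nat.sqrt (2 * n) + 2) ∧
    0 < Real.log (Real.log ((2 ^ (Nat.sqrt (2 * n) + 2) : ℕ) : ℝ)) ∧
    Real.log (Real.log ((2 ^ (Nat.sqrt (2 * n) + 2) : ℕ) : ℝ)) ≤ Real.log n := by
  refine ⟨10000, by norm_num, fun n hn X hX => ?_⟩
  obtain ⟨A, hA⟩ : ∃ A, A = Nat.sqrt (2 * n) := ⟨_, rfl⟩
  rw [← hA]
  have hnr : (10000 : ℝ) ≤ n := by exact_mod_cast hn
  have hn0 : (0 : ℝ) < n := by linarith
  have hs : (100 : ℝ) ≤ √(n : ℝ) := by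
    rw [show (100 : ℝ) = √(10000 : ℝ) by
      rw [show (10000 : ℝ) = 100 ^ 2 by norm_num, Real.sqrt_sq (by norm_num)]]
    exact Real.sqrt_le_sqrt hnr
  have hsq : √(n : ℝ) ^ 2 = n := Real.sq_sqrt hn0.le
  have hA2 : A * A ≤ 2 * n := by rw [hA]; exact Nat.sqrt_le (2 * n)
  have hAr : (A : ℝ) ≤ (142 / 100) * √(n : ℝ) := by
    have h1 : (A : ℝ) ^ 2 ≤ 2 * n := by rw [sq]; exact_mod_cast hA2
    apply le_of_sq_le_sq _ (by positivity)
    rw [mul_pow, hsq]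
    nlinarith
  have hA140 : 140 ≤ A := by
    rw [hA, Nat.le_sqrt]
    omega
  have hY : 2 * ((2 ^ (A + 2) : ℕ) : ℝ) = (2 : ℝ) ^ ((A : ℝ) + 3) := by
    push_cast
    rw [show (A : ℝ) + 3 = ((A + 3 : ℕ) : ℝ) by push_cast; ring, Real.rpow_natCast]
    ring
  have hX16 : (2 : ℝ) ^ ((3 / 2) * √(n : ℝ)) ≤ (X : ℝ) ^ (1 / 16 : ℝ) := by
    have h1 : (2 : ℝ) ^ ((3 / 2) * √(n : ℝ)) = ((2 : ℝ) ^ (24 * √(n : ℝ))) ^ (1 / 16 : ℝ) := by
      rw [← Real.rpow_mul (by norm_num)]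
      congr 1
      ring
    rw [h1]
    exact Real.rpow_le_rpow (by positivity) hX (by norm_num)
  have hlogY : Real.log ((2 ^ (A + 2) : ℕ) : ℝ) = (A + 2) * Real.log 2 := by
    push_cast
    rw [Real.log_pow]
    push_cast
    ring
  have hl2 := Real.log_two_gt_d9
  have hl2' := Real.log_two_lt_d9
  have hAr0 : (140 : ℝ) ≤ A := by exact_mod_cast hA140
  have hlY1 : (1 : ℝ) < (A + 2) * Real.log 2 := by nlinarith
  refine ⟨?_, ?_, ?_, ?_, ?_⟩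
  · have h1 : (n : ℝ) ≤ (2 : ℝ) ^ (24 * √(n : ℝ)) := by
      have h2 : (√(n : ℝ)) ≤ (2 : ℝ) ^ (12 * √(n : ℝ)) := by
        rw [Real.rpow_def_of_pos (by norm_num)]
        have := Real.add_one_le_exp (Real.log 2 * (12 * √(n : ℝ)))
        nlinarith
      calc (n : ℝ) = √(n : ℝ) * √(n : ℝ) := by rw [← sq, hsq]
        _ ≤ (2 : ℝ) ^ (12 * √(n : ℝ)) * (2 : ℝ) ^ (12 * √(n : ℝ)) := by gcongr
        _ = (2 : ℝ) ^ (24 * √(n : ℝ)) := by
            rw [← Real.rpow_add (by norm_num)]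
            congr 1
            ring
    exact_mod_cast h1.trans hX
  · rw [hY]
    refine le_trans ?_ hX16
    apply Real.rpow_le_rpow_of_exponent_le (by norm_num)
    linarith
  · calc 16 = 2 ^ 4 := by norm_num
      _ ≤ 2 ^ (A + 2) := Nat.pow_le_pow_right (by norm_num) (by omega)
  · rw [hlogY]
    exact Real.log_pos hlY1
  · rw [hlogY]
    apply Real.log_le_log (by linarith)
    nlinarith

end Pool.Agent.X28.SQ
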