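import Pool.Agent.X28.SQ.Circ

/-! Many different values of `2 ^ (x + y) + 2 ^ (z + w)`. -/

set_option autoImplicit false

open Finset

namespace Pool.Agent.X28.SQ

/-- the fibres of `(x, y, z, w) ↦ (x + y, z + w)` -/
lemma fibre (n : ℕ) (hn : 1 ≤ n) (Q : Finset (ℕ × ℕ × ℕ × ℕ))
    (hQ : ∀ v ∈ Q, n = v.1 ^ 2 + v.2.1 ^ 2 + v.2.2.1 ^ 2 + v.2.2.2 ^ 2) (a b : ℕ) :
    (#(Q.filter fun v => (v.1 + v.2.1, v.2.2.1 + v.2.2.2) = (a, b)) : ℝ) ≤ 88 * (n : ℝ) ^ (2 / 5 : ℝ) := by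
  obtain ⟨m, hm⟩ : ∃ m : ℕ, m = 2 * n - a ^ 2 - b ^ 2 := ⟨_, rfl⟩
  have h1 : #(Q.filter fun v => (v.1 + v.2.1, v.2.2.1 + v.2.2.2) = (a, b)) ≤
      #((univ : Finset (Bool × Bool)) ×ˢ sols m) := by
    apply card_le_card_of_injOn (fun v => ((decide (v.1 ≤ v.2.1), decide (v.2.2.1 ≤ v.2.2.2)),
      (Nat.dist v.1 v.2.1, Nat.dist v.2.2.1 v.2.2.2)))
    · rintro ⟨x, y, z, w⟩ hv
      rw [mem_coe, mem_filter] at hv
      have hs := hQ _ hv.1
      obtain ⟨h2, h3⟩ := Prod.mk.inj hv.2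
      simp only at h2 h3 hs
      rw [mem_coe, mem_product]
      refine ⟨mem_univ _, ?_⟩
      rw [mem_sols]
      show (Nat.dist x y) ^ 2 + (Nat.dist z w) ^ 2 = m
      have key : ∀ p q : ℕ, (Nat.dist p q) ^ 2 + (p + q) ^ 2 = 2 * (p ^ 2 + q ^ 2) := by
        intro p q
        rcases le_total p q with h | h
        · obtain ⟨e, rfl⟩ := Nat.exists_eq_add_of_le h
          rw [Nat.dist_eq_sub_of_le (by omega), Nat.add_sub_cancel_left]
          ring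
        · obtain ⟨e, rfl⟩ := Nat.exists_eq_add_of_le h
          rw [Nat.dist_eq_sub_of_le_right (by omega), Nat.add_sub_cancel_left]
          ring
      have k1 := key x y
      have k2 := key z w
      rw [h2] at k1
      rw [h3] at k2
      omega
    · rintro ⟨x, y, z, w⟩ hv ⟨x', y', z', w'⟩ hv' h
      rw [mem_coe, mem_filter] at hv hv'
      obtain ⟨h2, h3⟩ := Prod.mk.inj hv.2
      obtain ⟨h2', h3'⟩ := Prod.mk.inj hv'.2
      simp only at h2 h3 h2' h3'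
      simp only [Prod.mk.injEq, decide_eq_decide] at h
      obtain ⟨⟨e1, e2⟩, e3, e4⟩ := h
      unfold Nat.dist at e3 e4
      have f1 : x = x' ∧ y = y' := by
        rcases le_or_gt x y with g | g
        · have := e1.1 g
          omega
        · have : ¬ x' ≤ y' := fun g' => absurd (e1.2 g') (by omega)
          omega
      have f2 : z = z' ∧ w = w' := by
        rcases le_or_gt z w with g | g
        · have := e2.1 g
          omega
        · have : ¬ z' ≤ w' := fun g' => absurd (e2.2 g') (by omega)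
          omega
      rw [f1.1, f1.2, f2.1, f2.2]
  rw [card_product, card_univ] at h1
  have h2 : Fintype.card (Bool × Bool) = 4 := by simp
  rw [h2] at h1
  have h3 : (#(Q.filter fun v => (v.1 + v.2.1, v.2.2.1 + v.2.2.2) = (a, b)) : ℝ) ≤ 4 * #(sols m) := by
    exact_mod_cast h1
  have h4 := sols_le n m hn (by rw [hm]; omega)
  linarith

/-- the fibres of `(a, b) ↦ 2 ^ a + 2 ^ b` -/
lemma two_pow_fibre (P : Finset (ℕ × ℕ)) (N : ℕ) : #(P.filter fun z => 2 ^ z.1 + 2 ^ z.2 = N) ≤ 3 := by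
  have h1 : #(P.filter fun z => 2 ^ z.1 + 2 ^ z.2 = N) ≤
      #({(Nat.log 2 N, Nat.log 2 (N - 2 ^ Nat.log 2 N)), (Nat.log 2 (N - 2 ^ Nat.log 2 N), Nat.log 2 N),
        (Nat.log 2 N - 1, Nat.log 2 N - 1)} : Finset (ℕ × ℕ)) := by
    apply card_le_card
    rintro ⟨a, b⟩ hz
    rw [mem_filter] at hz
    have hN : 2 ^ a + 2 ^ b = N := hz.2
    have big : ∀ c d : ℕ, d < c → 2 ^ c + 2 ^ d = N → Nat.log 2 N = c ∧ Nat.log 2 (N - 2 ^ Nat.log 2 N) = d := by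
      intro c d hdc h
      have h3 : 2 ^ d < 2 ^ c := Nat.pow_lt_pow_right (by norm_num) hdc
      have h4 : Nat.log 2 N = c := by
        have h5 : 0 < 2 ^ d := Nat.two_pow_pos d
        rw [Nat.log_eq_iff (Or.inr ⟨by norm_num, by omega⟩)]
        rw [pow_succ]
        constructor <;> omega
      refine ⟨h4, ?_⟩
      rw [h4, ← h, Nat.add_sub_cancel_left]
      exact Nat.log_pow (by norm_num) d
    simp only [mem_insert, mem_singleton, Prod.mk.injEq]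
    rcases lt_trichotomy a b with h | h | h
    · obtain ⟨h5, h6⟩ := big b a h (by omega)
      exact Or.inr (Or.inl ⟨h6.symm, h5.symm⟩)
    · subst h
      have h7 : Nat.log 2 N = a + 1 := by
        rw [← hN, ← two_mul, ← pow_succ']
        exact Nat.log_pow (by norm_num) _
      refine Or.inr (Or.inr ?_)
      rw [h7]
      exact ⟨by omega, by omega⟩
    · obtain ⟨h5, h6⟩ := big a b h hN
      exact Or.inl ⟨h5.symm, h6.symm⟩
  exact h1.trans card_le_three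

/-- many different values -/
theorem many_values (n : ℕ) (hn : 1 ≤ n) (Q : Finset (ℕ × ℕ × ℕ × ℕ))
    (hQ : ∀ v ∈ Q, n = v.1 ^ 2 + v.2.1 ^ 2 + v.2.2.1 ^ 2 + v.2.2.2 ^ 2) :
    (#Q : ℝ) ≤ 264 * (n : ℝ) ^ (2 / 5 : ℝ) * #(Q.image fun v => 2 ^ (v.1 + v.2.1) + 2 ^ (v.2.2.1 + v.2.2.2)) := by
  classical
  have h0 : (0 : ℝ) ≤ 88 * (n : ℝ) ^ (2 / 5 : ℝ) := by positivity
  have h1 : (#Q : ℝ) ≤ 88 * (n : ℝ) ^ (2 / 5 : ℝ) * #(Q.image fun v => (v.1 + v.2.1, v.2.2.1 + v.2.2.2)) := by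
    have e := card_eq_sum_card_image (fun v : ℕ × ℕ × ℕ × ℕ => (v.1 + v.2.1, v.2.2.1 + v.2.2.2)) Q
    have e' : (#Q : ℝ) = ∑ p ∈ Q.image (fun v : ℕ × ℕ × ℕ × ℕ => (v.1 + v.2.1, v.2.2.1 + v.2.2.2)),
        (#(Q.filter fun v => (v.1 + v.2.1, v.2.2.1 + v.2.2.2) = p) : ℝ) := by exact_mod_cast e
    rw [e']
    refine (sum_le_card_nsmul _ _ (88 * (n : ℝ) ^ (2 / 5 : ℝ)) fun p _ => ?_).trans (le_of_eq ?_)
    · exact fibre n hn Q hQ p.1 p.2
    · rw [nsmul_eq_mul, mul_comm]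
  have h2 : #(Q.image fun v => (v.1 + v.2.1, v.2.2.1 + v.2.2.2)) ≤
      3 * #(Q.image fun v => 2 ^ (v.1 + v.2.1) + 2 ^ (v.2.2.1 + v.2.2.2)) := by
    have h3 := card_le_mul_card_image (s := Q.image fun v => (v.1 + v.2.1, v.2.2.1 + v.2.2.2))
      (f := fun z => 2 ^ z.1 + 2 ^ z.2) 3 (fun N _ => two_pow_fibre _ N)
    rwa [image_image] at h3
  have h4 : (#(Q.image fun v => (v.1 + v.2.1, v.2.2.1 + v.2.2.2)) : ℝ) ≤
      3 * #(Q.image fun v => 2 ^ (v.1 + v.2.1) + 2 ^ (v.2.2.1 + v.2.2.2)) := by exact_mod_cast h2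
  calc (#Q : ℝ) ≤ _ := h1
    _ ≤ 88 * (n : ℝ) ^ (2 / 5 : ℝ) * (3 * #(Q.image fun v => 2 ^ (v.1 + v.2.1) + 2 ^ (v.2.2.1 + v.2.2.2))) :=
        mul_le_mul_of_nonneg_left h4 h0
    _ = _ := by ring

end Pool.Agent.X28.SQ
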