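import Mathlib

/-! Lattice points on circles: at most `C n ^ (2/5)` solutions of `u² + v² = m ≤ 2 n`. -/

set_option autoImplicit false

open Finset

namespace Pool.Agent.X28.SQ

/-- the product of the squared sides of a triangle inscribed in a circle -/
lemma circ_id (m u1 v1 u2 v2 u3 v3 : ℤ) (h1 : u1 ^ 2 + v1 ^ 2 = m) (h2 : u2 ^ 2 + v2 ^ 2 = m)
    (h3 : u3 ^ 2 + v3 ^ 2 = m) :
    4 * m * ((u2 - u1) * (v3 - v1) - (u3 - u1) * (v2 - v1)) ^ 2 =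
      ((u1 - u2) ^ 2 + (v1 - v2) ^ 2) * ((u1 - u3) ^ 2 + (v1 - v3) ^ 2) *
        ((u2 - u3) ^ 2 + (v2 - v3) ^ 2) := by
  obtain ⟨a, ha⟩ : ∃ a, a = u1 * u2 + v1 * v2 := ⟨_, rfl⟩
  obtain ⟨b, hb⟩ : ∃ b, b = u1 * u3 + v1 * v3 := ⟨_, rfl⟩
  obtain ⟨c, hc⟩ : ∃ c, c = u2 * u3 + v2 * v3 := ⟨_, rfl⟩
  have hg : m * m * m + 2 * (a * b * c) - m * c ^ 2 - m * b ^ 2 - m * a ^ 2 = 0 := by
    have : (u1 ^ 2 + v1 ^ 2) * (u2 ^ 2 + v2 ^ 2) * (u3 ^ 2 + v3 ^ 2) + 2 * (a * b * c) -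
        (u1 ^ 2 + v1 ^ 2) * c ^ 2 - (u2 ^ 2 + v2 ^ 2) * b ^ 2 - (u3 ^ 2 + v3 ^ 2) * a ^ 2 = 0 := by
      rw [ha, hb, hc]; ring
    rwa [h1, h2, h3] at this
  have hd : ((u2 - u1) * (v3 - v1) - (u3 - u1) * (v2 - v1)) ^ 2 =
      3 * m ^ 2 - (a ^ 2 + b ^ 2 + c ^ 2) + 2 * (a * b + a * c + b * c) - 2 * m * (a + b + c) := by
    have : ((u2 - u1) * (v3 - v1) - (u3 - u1) * (v2 - v1)) ^ 2 =
        (u1 ^ 2 + v1 ^ 2) * (u2 ^ 2 + v2 ^ 2) + (u1 ^ 2 + v1 ^ 2) * (u3 ^ 2 + v3 ^ 2) +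
        (u2 ^ 2 + v2 ^ 2) * (u3 ^ 2 + v3 ^ 2) - (a ^ 2 + b ^ 2 + c ^ 2) + 2 * (a * b + a * c + b * c) -
        2 * ((u1 ^ 2 + v1 ^ 2) * c + (u2 ^ 2 + v2 ^ 2) * b + (u3 ^ 2 + v3 ^ 2) * a) := by
      rw [ha, hb, hc]; ring
    rw [this, h1, h2, h3]; ring
  have e1 : (u1 - u2) ^ 2 + (v1 - v2) ^ 2 = 2 * (m - a) := by
    have : (u1 - u2) ^ 2 + (v1 - v2) ^ 2 = (u1 ^ 2 + v1 ^ 2) + (u2 ^ 2 + v2 ^ 2) - 2 * a := by rw [ha]; ring
    rw [this, h1, h2]; ring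
  have e2 : (u1 - u3) ^ 2 + (v1 - v3) ^ 2 = 2 * (m - b) := by
    have : (u1 - u3) ^ 2 + (v1 - v3) ^ 2 = (u1 ^ 2 + v1 ^ 2) + (u3 ^ 2 + v3 ^ 2) - 2 * b := by rw [hb]; ring
    rw [this, h1, h3]; ring
  have e3 : (u2 - u3) ^ 2 + (v2 - v3) ^ 2 = 2 * (m - c) := by
    have : (u2 - u3) ^ 2 + (v2 - v3) ^ 2 = (u2 ^ 2 + v2 ^ 2) + (u3 ^ 2 + v3 ^ 2) - 2 * c := by rw [hc]; ring
    rw [this, h2, h3]; ring
  rw [hd, e1, e2, e3]
  linear_combination (4 : ℤ) * hg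

/-- three points of the circle are not close together -/
lemma three (m : ℤ) (δ : ℤ) (hδ : 0 ≤ δ) (hm : 2 * δ ^ 6 < m) (u1 v1 u2 v2 u3 v3 : ℤ)
    (h1 : u1 ^ 2 + v1 ^ 2 = m) (h2 : u2 ^ 2 + v2 ^ 2 = m) (h3 : u3 ^ 2 + v3 ^ 2 = m)
    (a1 : |u1 - u2| ≤ δ) (a2 : |v1 - v2| ≤ δ) (a3 : |u1 - u3| ≤ δ) (a4 : |v1 - v3| ≤ δ)
    (a5 : |u2 - u3| ≤ δ) (a6 : |v2 - v3| ≤ δ) :
    (u1 = u2 ∧ v1 = v2) ∨ (u1 = u3 ∧ v1 = v3) ∨ (u2 = u3 ∧ v2 = v3) := by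
  have hid := circ_id m u1 v1 u2 v2 u3 v3 h1 h2 h3
  have sq : ∀ x : ℤ, |x| ≤ δ → x ^ 2 ≤ δ ^ 2 := fun x hx => by
    rw [← sq_abs x]
    exact pow_le_pow_left₀ (abs_nonneg x) hx 2
  have b : ∀ x y : ℤ, |x| ≤ δ → |y| ≤ δ → x ^ 2 + y ^ 2 ≤ 2 * δ ^ 2 := fun x y hx hy => by
    linarith [sq x hx, sq y hy]
  have n : ∀ x y : ℤ, 0 ≤ x ^ 2 + y ^ 2 := fun x y => by positivity
  have hprod : ((u1 - u2) ^ 2 + (v1 - v2) ^ 2) * ((u1 - u3) ^ 2 + (v1 - v3) ^ 2) *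
        ((u2 - u3) ^ 2 + (v2 - v3) ^ 2) ≤ 8 * δ ^ 6 := by
    calc _ ≤ (2 * δ ^ 2) * (2 * δ ^ 2) * (2 * δ ^ 2) := by
          apply mul_le_mul (mul_le_mul (b _ _ a1 a2) (b _ _ a3 a4) (n _ _) (by positivity))
            (b _ _ a5 a6) (n _ _) (by positivity)
      _ = 8 * δ ^ 6 := by ring
  have hm0 : 0 < m := lt_of_le_of_lt (by positivity) hm
  have hdet : ((u2 - u1) * (v3 - v1) - (u3 - u1) * (v2 - v1)) ^ 2 = 0 := by
    by_contra hne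
    have h5 : 1 ≤ ((u2 - u1) * (v3 - v1) - (u3 - u1) * (v2 - v1)) ^ 2 := by
      have : 0 ≤ ((u2 - u1) * (v3 - v1) - (u3 - u1) * (v2 - v1)) ^ 2 := by positivity
      omega
    have h6 : 4 * m ≤ 8 * δ ^ 6 := by
      calc 4 * m = 4 * m * 1 := by ring
        _ ≤ 4 * m * ((u2 - u1) * (v3 - v1) - (u3 - u1) * (v2 - v1)) ^ 2 :=
          mul_le_mul_of_nonneg_left h5 (by linarith)
        _ ≤ _ := by rw [hid]; exact hprod
    linarith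
  rw [hdet, mul_zero] at hid
  have z : ∀ x y x' y' : ℤ, (x - x') ^ 2 + (y - y') ^ 2 = 0 → x = x' ∧ y = y' := by
    intro x y x' y' h
    have h7 : (x - x') ^ 2 = 0 := by nlinarith [sq_nonneg (x - x'), sq_nonneg (y - y')]
    have h8 : (y - y') ^ 2 = 0 := by nlinarith [sq_nonneg (x - x'), sq_nonneg (y - y')]
    have h9 := pow_eq_zero_iff (two_ne_zero) |>.1 h7
    have h10 := pow_eq_zero_iff (two_ne_zero) |>.1 h8
    exact ⟨by linarith, by linarith⟩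
  rcases mul_eq_zero.1 hid.symm with h | h
  · rcases mul_eq_zero.1 h with h | h
    · exact Or.inl (z _ _ _ _ h)
    · exact Or.inr (Or.inl (z _ _ _ _ h))
  · exact Or.inr (Or.inr (z _ _ _ _ h))

/-- the solutions of `u² + v² = m` -/
def sols (m : ℕ) : Finset (ℕ × ℕ) := (range (m + 1) ×ˢ range (m + 1)).filter fun z => z.1 ^ 2 + z.2 ^ 2 = m

lemma mem_sols {m : ℕ} {z : ℕ × ℕ} : z ∈ sols m ↔ z.1 ^ 2 + z.2 ^ 2 = m := by
  unfold sols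
  rw [mem_filter, mem_product, mem_range, mem_range]
  constructor
  · exact fun h => h.2
  · intro h
    refine ⟨⟨?_, ?_⟩, h⟩ <;> nlinarith

lemma count_big (m δ s : ℕ) (hδ : 1 ≤ δ) (hm : 2 * δ ^ 6 < m) (hs : m ≤ s ^ 2) :
    #(sols m) ≤ 2 * (2 * (s / δ) + 1) := by
  have hle : ∀ z ∈ sols m, z.1 ≤ s ∧ z.2 ≤ s := by
    intro z hz
    rw [mem_sols] at hz
    constructor
    · by_contra h
      push Not at h
      nlinarith
    · by_contra h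
      push Not at h
      nlinarith
  have h1 := card_le_mul_card_image (s := sols m) (f := fun z => ((z.1 / δ : ℕ) : ℤ) - ((z.2 / δ : ℕ) : ℤ)) 2 ?_
  · refine h1.trans (Nat.mul_le_mul_left 2 ?_)
    have h2 : (sols m).image (fun z => ((z.1 / δ : ℕ) : ℤ) - ((z.2 / δ : ℕ) : ℤ)) ⊆
        Icc (-((s / δ : ℕ) : ℤ)) ((s / δ : ℕ) : ℤ) := by
      intro t ht
      obtain ⟨z, hz, rfl⟩ := mem_image.1 ht
      obtain ⟨h3, h4⟩ := hle z hz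
      have h5 : z.1 / δ ≤ s / δ := Nat.div_le_div_right h3
      have h6 : z.2 / δ ≤ s / δ := Nat.div_le_div_right h4
      rw [mem_Icc]
      have h5' : ((z.1 / δ : ℕ) : ℤ) ≤ ((s / δ : ℕ) : ℤ) := by exact_mod_cast h5
      have h6' : ((z.2 / δ : ℕ) : ℤ) ≤ ((s / δ : ℕ) : ℤ) := by exact_mod_cast h6
      have h7' : (0 : ℤ) ≤ ((z.1 / δ : ℕ) : ℤ) := Int.natCast_nonneg _
      have h8' : (0 : ℤ) ≤ ((z.2 / δ : ℕ) : ℤ) := Int.natCast_nonneg _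
      exact ⟨by linarith, by linarith⟩
    refine (card_le_card h2).trans ?_
    rw [Int.card_Icc]
    omega
  · intro t _
    by_contra hcon
    push Not at hcon
    obtain ⟨x, hx, y, hy, w, hw, hxy, hxw, hyw⟩ := two_lt_card.1 hcon
    rw [mem_filter] at hx hy hw
    -- all in the same cell
    have cell : ∀ a b : ℕ × ℕ, a ∈ sols m → b ∈ sols m →
        ((a.1 / δ : ℕ) : ℤ) - ((a.2 / δ : ℕ) : ℤ) = ((b.1 / δ : ℕ) : ℤ) - ((b.2 / δ : ℕ) : ℤ) →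
        a.1 / δ ≤ b.1 / δ := by
      intro a b ha hb hab
      rw [mem_sols] at ha hb
      by_contra hlt
      push Not at hlt
      have h7 : b.1 < a.1 := by
        by_contra h8
        push Not at h8
        exact absurd (Nat.div_le_div_right (c := δ) h8) (by omega)
      have h9 : b.2 / δ < a.2 / δ := by omega
      have h10 : b.2 < a.2 := by
        by_contra h8
        push Not at h8
        exact absurd (Nat.div_le_div_right (c := δ) h8) (by omega)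
      nlinarith
    have near : ∀ a b : ℕ × ℕ, a ∈ sols m → b ∈ sols m →
        ((a.1 / δ : ℕ) : ℤ) - ((a.2 / δ : ℕ) : ℤ) = ((b.1 / δ : ℕ) : ℤ) - ((b.2 / δ : ℕ) : ℤ) →
        |(a.1 : ℤ) - b.1| ≤ δ ∧ |(a.2 : ℤ) - b.2| ≤ δ := by
      intro a b ha hb hab
      have h1 : a.1 / δ = b.1 / δ := le_antisymm (cell a b ha hb hab) (cell b a hb ha hab.symm)
      have h2 : a.2 / δ = b.2 / δ := by omega
      have key : ∀ p q : ℕ, p / δ = q / δ → |(p : ℤ) - q| ≤ δ := by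
        intro p q hpq
        have e1 := Nat.div_add_mod p δ
        have e2 := Nat.div_add_mod q δ
        have e3 := Nat.mod_lt p (show 0 < δ by omega)
        have e4 := Nat.mod_lt q (show 0 < δ by omega)
        rw [hpq] at e1
        rw [abs_le]
        constructor <;> omega
      exact ⟨key _ _ h1, key _ _ h2⟩
    have hxy' := near x y hx.1 hy.1 (hx.2.trans hy.2.symm)
    have hxw' := near x w hx.1 hw.1 (hx.2.trans hw.2.symm)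
    have hyw' := near y w hy.1 hw.1 (hy.2.trans hw.2.symm)
    have c1 := mem_sols.1 hx.1
    have c2 := mem_sols.1 hy.1
    have c3 := mem_sols.1 hw.1
    have h := three (m : ℤ) (δ : ℤ) (by positivity) (by exact_mod_cast hm) x.1 x.2 y.1 y.2 w.1 w.2
      (by exact_mod_cast c1) (by exact_mod_cast c2) (by exact_mod_cast c3)
      hxy'.1 hxy'.2 hxw'.1 hxw'.2 hyw'.1 hyw'.2
    rcases h with h | h | h
    · exact hxy (Prod.ext (by exact_mod_cast h.1) (by exact_mod_cast h.2))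
    · exact hxw (Prod.ext (by exact_mod_cast h.1) (by exact_mod_cast h.2))
    · exact hyw (Prod.ext (by exact_mod_cast h.1) (by exact_mod_cast h.2))

lemma count_small (m s : ℕ) (hs : m ≤ s ^ 2) : #(sols m) ≤ s + 1 := by
  rw [← card_range (s + 1)]
  apply card_le_card_of_injOn (fun z => z.1)
  · intro z hz
    rw [mem_coe, mem_sols] at hz
    rw [mem_coe, mem_range]
    show z.1 < s + 1
    by_contra h
    push Not at h
    nlinarith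
  · intro a ha b hb hab
    rw [mem_coe, mem_sols] at ha hb
    simp only at hab
    apply Prod.ext hab
    rw [hab] at ha
    have h : a.2 ^ 2 = b.2 ^ 2 := by omega
    exact Nat.pow_left_injective two_ne_zero h

/-- at most `22 n ^ (2/5)` lattice points -/
theorem sols_le (n m : ℕ) (hn : 1 ≤ n) (hm : m ≤ 2 * n) : (#(sols m) : ℝ) ≤ 22 * (n : ℝ) ^ (2 / 5 : ℝ) := by
  have hnr : (1 : ℝ) ≤ n := by exact_mod_cast hn
  have hn0 : (0 : ℝ) < n := by linarith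
  obtain ⟨δ, hδ⟩ : ∃ δ : ℕ, δ = ⌊(n : ℝ) ^ (1 / 10 : ℝ)⌋₊ := ⟨_, rfl⟩
  have h10 : (1 : ℝ) ≤ (n : ℝ) ^ (1 / 10 : ℝ) := Real.one_le_rpow hnr (by norm_num)
  have hδle : (δ : ℝ) ≤ (n : ℝ) ^ (1 / 10 : ℝ) := by rw [hδ]; exact Nat.floor_le (by positivity)
  have hδ1 : 1 ≤ δ := by rw [hδ]; exact Nat.le_floor (by exact_mod_cast h10)
  have hδge : (n : ℝ) ^ (1 / 10 : ℝ) ≤ 2 * δ := by
    have h1 := Nat.lt_floor_add_one ((n : ℝ) ^ (1 / 10 : ℝ))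
    rw [← hδ] at h1
    have h2 : (1 : ℝ) ≤ δ := by exact_mod_cast hδ1
    linarith
  have h25 : (1 : ℝ) ≤ (n : ℝ) ^ (2 / 5 : ℝ) := Real.one_le_rpow hnr (by norm_num)
  rcases Nat.lt_or_ge (2 * δ ^ 6) m with h | h
  · obtain ⟨s, hs⟩ : ∃ s : ℕ, s = ⌈√(2 * n : ℝ)⌉₊ := ⟨_, rfl⟩
    have hs2 : m ≤ s ^ 2 := by
      have h1 : √(2 * n : ℝ) ≤ s := by rw [hs]; exact Nat.le_ceil _
      have h2 : (2 * n : ℝ) ≤ (s : ℝ) ^ 2 := by
        rw [← Real.sq_sqrt (show (0 : ℝ) ≤ 2 * n by positivity)]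
        exact pow_le_pow_left₀ (Real.sqrt_nonneg _) h1 2
      have h3 : (m : ℝ) ≤ 2 * n := by exact_mod_cast hm
      exact_mod_cast h3.trans h2
    have hc := count_big m δ s hδ1 h hs2
    have hc' : (#(sols m) : ℝ) ≤ 2 * (2 * ((s / δ : ℕ) : ℝ) + 1) := by exact_mod_cast hc
    have hdiv : ((s / δ : ℕ) : ℝ) ≤ s / δ := Nat.cast_div_le
    have hsr : (s : ℝ) ≤ √(2 * n : ℝ) + 1 := by rw [hs]; exact (Nat.ceil_lt_add_one (Real.sqrt_nonneg _)).le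
    have hsq : √(2 * n : ℝ) ≤ (3 / 2) * √(n : ℝ) := by
      rw [Real.sqrt_le_left (by positivity)]
      rw [mul_pow, Real.sq_sqrt hn0.le]
      linarith
    have hsn1 : 1 ≤ √(n : ℝ) := Real.one_le_sqrt.2 hnr
    have hsr2 : (s : ℝ) ≤ (5 / 2) * √(n : ℝ) := by linarith
    have hδ0 : (0 : ℝ) < δ := by exact_mod_cast hδ1
    have h5 : √(n : ℝ) = (n : ℝ) ^ (2 / 5 : ℝ) * (n : ℝ) ^ (1 / 10 : ℝ) := by
      rw [Real.sqrt_eq_rpow, ← Real.rpow_add hn0]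
      norm_num
    have h6 : (s : ℝ) / δ ≤ 5 * (n : ℝ) ^ (2 / 5 : ℝ) := by
      rw [div_le_iff₀ hδ0]
      calc (s : ℝ) ≤ (5 / 2) * ((n : ℝ) ^ (2 / 5 : ℝ) * (n : ℝ) ^ (1 / 10 : ℝ)) := by rw [← h5]; exact hsr2
        _ ≤ (5 / 2) * ((n : ℝ) ^ (2 / 5 : ℝ) * (2 * δ)) := by gcongr
        _ = _ := by ring
    linarith
  · have hc := count_small m (2 * δ ^ 3) (by
      calc m ≤ 2 * δ ^ 6 := h
        _ ≤ 4 * δ ^ 6 := by omega
        _ = (2 * δ ^ 3) ^ 2 := by ring)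
    have hc' : (#(sols m) : ℝ) ≤ 2 * (δ : ℝ) ^ 3 + 1 := by exact_mod_cast hc
    have h1 : (δ : ℝ) ^ 3 ≤ ((n : ℝ) ^ (1 / 10 : ℝ)) ^ 3 := pow_le_pow_left₀ (Nat.cast_nonneg _) hδle 3
    have h2 : ((n : ℝ) ^ (1 / 10 : ℝ)) ^ 3 ≤ (n : ℝ) ^ (2 / 5 : ℝ) := by
      rw [← Real.rpow_natCast, ← Real.rpow_mul hn0.le]
      exact Real.rpow_le_rpow_of_exponent_le hnr (by norm_num)
    linarith

end Pool.Agent.X28.SQ
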